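import Pool.Agent.Run7.h406.Fc.Rg
set_option autoImplicit false

/-!
The regulator integral when all but one entry are the coordinates of a torus: the determinant.
-/

namespace Pool.Agent.Run7.h406.Fc

open MeasureTheory Set

open Pool.Agent.TH826.MK

open Pool.Agent.Y775.CC (grow_circ_zero grow_circ_self grow_circ_ne)

open Pool.Agent.Run7.h406.Fb (integral_box)

section det

variable {D : ℕ}

/-- the order of the columns -/
def ecol (D : ℕ) : Fin D ⊕ Fin 1 ≃ Fin (D + 1) :=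
  (Equiv.sumComm _ _).trans (finSumFinEquiv.trans (finCongr (add_comm 1 D)))

theorem ecol_inl (j : Fin D) : ecol D (Sum.inl j) = j.succ := by
  apply Fin.ext
  unfold ecol
  simp

theorem ecol_inr (j : Fin 1) : ecol D (Sum.inr j) = 0 := by
  rw [Subsingleton.elim j 0]
  apply Fin.ext
  unfold ecol
  simp

/-- the entries -/
noncomputable def entr (e : Fin D ⊕ Fin 1 ≃ Fin (D + 1)) (ρ : Fin D → ℝ)
    (f : (Fin D → ℝ) → ℂ) (l : Fin (D + 1)) : (Fin D → ℝ) → ℂ :=
  Sum.elim (fun (i : Fin D) (θ : Fin D → ℝ) => circ (ρ i) (θ i)) (fun _ => f) (e.symm l)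

theorem integrand_entr (e : Fin D ⊕ Fin 1 ≃ Fin (D + 1)) {ρ : Fin D → ℝ} (hρ : ∀ i, 0 < ρ i)
    (f : (Fin D → ℝ) → ℂ) (y : Fin (D + 1) → ℝ) :
    integrand (entr e ρ f) y =
      (Equiv.Perm.sign ((ecol D).trans e.symm) : ℤ) * (2 * Real.pi) ^ D * rgi ρ f (tl D y) := by
  classical
  set M : Matrix (Fin (D + 1)) (Fin (D + 1)) ℂ := Matrix.of fun l => grow (entr e ρ f l) y with hM
  set c : ℂ := 2 * Real.pi * Complex.I with hc
  have hc0 : c ≠ 0 := by
    rw [hc]
    simp [Real.pi_ne_zero]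
  set τ : Equiv.Perm (Fin D ⊕ Fin 1) := (ecol D).trans e.symm with hτ
  set B : Matrix (Fin D) (Fin 1) ℂ := Matrix.of fun i _ => ((Real.log (ρ i) : ℝ) : ℂ) with hB
  set C : Matrix (Fin 1) (Fin D) ℂ := Matrix.of fun _ j => grow f y j.succ with hC
  set E : Matrix (Fin 1) (Fin 1) ℂ := Matrix.of fun _ _ => grow f y 0 with hE
  have hblock : (M.submatrix e e).submatrix id τ =
      Matrix.fromBlocks (c • (1 : Matrix (Fin D) (Fin D) ℂ)) B C E := by
    ext a b
    have hcol : e (τ b) = ecol D b := by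
      rw [hτ, Equiv.trans_apply, Equiv.apply_symm_apply]
    rw [Matrix.submatrix_apply, Matrix.submatrix_apply, hcol, id]
    rcases a with a | a <;> rcases b with b | b
    · rw [Matrix.fromBlocks_apply₁₁, ecol_inl, hM, Matrix.of_apply, Matrix.smul_apply,
        Matrix.one_apply, smul_eq_mul]
      unfold entr
      rw [Equiv.symm_apply_apply, Sum.elim_inl]
      by_cases h : a = b
      · subst h
        rw [if_pos rfl, mul_one]
        exact grow_circ_self (hρ a) a y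
      · rw [if_neg h, mul_zero]
        exact grow_circ_ne (Ne.symm h) y
    · rw [Matrix.fromBlocks_apply₁₂, ecol_inr, hM, Matrix.of_apply, hB, Matrix.of_apply]
      unfold entr
      rw [Equiv.symm_apply_apply, Sum.elim_inl]
      exact grow_circ_zero (hρ a) a y
    · rw [Matrix.fromBlocks_apply₂₁, ecol_inl, hM, Matrix.of_apply, hC, Matrix.of_apply]
      unfold entr
      rw [Equiv.symm_apply_apply, Sum.elim_inr]
    · rw [Matrix.fromBlocks_apply₂₂, ecol_inr, hM, Matrix.of_apply, hE, Matrix.of_apply]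
      unfold entr
      rw [Equiv.symm_apply_apply, Sum.elim_inr]
  have hsign : ((Equiv.Perm.sign τ : ℤ) : ℂ) * ((Equiv.Perm.sign τ : ℤ) : ℂ) = 1 := by
    rcases Int.units_eq_one_or (Equiv.Perm.sign τ) with h | h <;> rw [h] <;> simp
  have hdet : M.det = ((Equiv.Perm.sign τ : ℤ) : ℂ) * (c ^ D * (grow f y 0 -
      c⁻¹ * ∑ j, grow f y j.succ * (Real.log (ρ j) : ℝ))) := by
    have h1 : ((M.submatrix e e).submatrix id τ).det =
        ((Equiv.Perm.sign τ : ℤ) : ℂ) * (M.submatrix e e).det :=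
      Matrix.det_permute' τ (M.submatrix e e)
    rw [Matrix.det_submatrix_equiv_self, hblock] at h1
    let inv : Invertible (c • (1 : Matrix (Fin D) (Fin D) ℂ)) :=
      ⟨c⁻¹ • 1, by rw [smul_mul_smul_comm, inv_mul_cancel₀ hc0, one_mul, one_smul],
        by rw [smul_mul_smul_comm, mul_inv_cancel₀ hc0, one_mul, one_smul]⟩
    rw [Matrix.det_fromBlocks₁₁] at h1
    have hinv : ⅟ (c • (1 : Matrix (Fin D) (Fin D) ℂ)) = c⁻¹ • 1 := rfl
    rw [hinv, Matrix.det_smul, Matrix.det_one, mul_one, Fintype.card_fin, Matrix.det_unique] at h1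
    have h2 : (E - C * (c⁻¹ • (1 : Matrix (Fin D) (Fin D) ℂ)) * B) default default =
        grow f y 0 - c⁻¹ * ∑ j, grow f y j.succ * (Real.log (ρ j) : ℝ) := by
      rw [Matrix.mul_smul, Matrix.mul_one, Matrix.smul_mul, Matrix.sub_apply, Matrix.smul_apply,
        Matrix.mul_apply, smul_eq_mul]
      simp only [hE, hC, hB, Matrix.of_apply]
    rw [h2] at h1
    calc M.det = (((Equiv.Perm.sign τ : ℤ) : ℂ) * ((Equiv.Perm.sign τ : ℤ) : ℂ)) * M.det := by
          rw [hsign, one_mul]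
      _ = ((Equiv.Perm.sign τ : ℤ) : ℂ) * (((Equiv.Perm.sign τ : ℤ) : ℂ) * M.det) := mul_assoc _ _ _
      _ = _ := by rw [← h1]
  have hI : (-Complex.I) ^ D * c ^ D = (((2 * Real.pi) ^ D : ℝ) : ℂ) := by
    rw [← mul_pow, hc]
    push_cast
    congr 1
    linear_combination (-(2 * (Real.pi : ℂ))) * Complex.I_mul_I
  unfold integrand
  rw [hdet]
  have h3 : (-Complex.I) ^ D * (((Equiv.Perm.sign τ : ℤ) : ℂ) * (c ^ D * (grow f y 0 -
      c⁻¹ * ∑ j, grow f y j.succ * (Real.log (ρ j) : ℝ)))) =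
      (((Equiv.Perm.sign τ : ℤ) * (2 * Real.pi) ^ D : ℝ) : ℂ) * (grow f y 0 -
      c⁻¹ * ∑ j, grow f y j.succ * (Real.log (ρ j) : ℝ)) := by
    push_cast at hI ⊢
    linear_combination (((Equiv.Perm.sign τ : ℤ) : ℂ) * (grow f y 0 -
      c⁻¹ * ∑ j, grow f y j.succ * (Real.log (ρ j) : ℝ))) * hI
  rw [h3, Complex.re_ofReal_mul]
  congr 1
  unfold rgi
  rw [Complex.sub_re, grow_zero, Complex.ofReal_re, Finset.mul_sum, Complex.re_sum]
  congr 1
  refine Finset.sum_congr rfl fun j _ => ?_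
  rw [grow_succ]
  have hpi : (Real.pi : ℂ) ≠ 0 := by exact_mod_cast Real.pi_ne_zero
  have h4 : c⁻¹ = (((2 * Real.pi)⁻¹ : ℝ) : ℂ) * -Complex.I := by
    rw [hc, mul_inv, Complex.inv_I]
    push_cast
    ring
  rw [h4]
  have h5 : (((2 * Real.pi)⁻¹ : ℝ) : ℂ) * -Complex.I *
      (((((y 0 * (lw f j (tl D y)).re : ℝ) : ℂ)) + Complex.I * ((lw f j (tl D y)).im : ℝ)) *
        (Real.log (ρ j) : ℝ)) =
      (((2 * Real.pi)⁻¹ * Real.log (ρ j) : ℝ) : ℂ) * (((lw f j (tl D y)).im : ℝ) -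
        Complex.I * ((y 0 * (lw f j (tl D y)).re : ℝ) : ℂ)) := by
    push_cast
    linear_combination (-((2 * (Real.pi : ℂ))⁻¹ * (Real.log (ρ j) : ℂ) *
      ((lw f j (tl D y)).im : ℂ))) * Complex.I_mul_I
  rw [h5, Complex.re_ofReal_mul, Complex.sub_re, Complex.ofReal_re, Complex.I_mul_re,
    Complex.ofReal_im, neg_zero, sub_zero]
  ring

/-- **The reduction to the functional `rg`.** -/
theorem pairing_entr (e : Fin D ⊕ Fin 1 ≃ Fin (D + 1)) {ρ : Fin D → ℝ} (hρ : ∀ i, 0 < ρ i)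
    {f : (Fin D → ℝ) → ℂ} (hf : Good f) :
    pairing (entr e ρ f) =
      (Equiv.Perm.sign ((ecol D).trans e.symm) : ℤ) * (2 * Real.pi) ^ D * rg ρ f := by
  unfold pairing
  simp only [integrand_entr e hρ f]
  rw [integral_const_mul]
  congr 1
  rw [integral_box (F := fun y => rgi ρ f (tl D y)) 0
    ((continuous_rgi hf).comp (tl D).continuous)]
  unfold rg
  refine integral_congr_ae (Filter.Eventually.of_forall fun x => ?_)
  simp only
  have h1 : ∀ s : ℝ, tl D ((0 : Fin (D + 1)).insertNth s x : Fin (D + 1) → ℝ) = x := by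
    intro s
    funext l
    simp
  simp only [h1]
  simp

end det

end Pool.Agent.Run7.h406.Fc
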