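import Pool.Agent.Run7.h406.Fc.Rg
import Pool.Agent.N65.TL.Ring
import Pool.Agent.N65.TL.Tor
set_option autoImplicit false

/-!
Laurent polynomials on a torus with given radii.
-/

namespace Pool.Agent.Run7.h406.Fc

open MeasureTheory Set Filter Topology

open Pool.Agent.TH826.MK

open Pool.Agent.N65.TL (LP lev lev_eq lev_single mon mon_zero good_zpow per_circ contDiff_zpow')

section ev

variable {K : Type*} [Field K] {D : ℕ} {ρ : Fin D → ℝ} (hρ : ∀ i, 0 < ρ i) (σ : K →+* ℂ)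

/-- the coordinates -/
noncomputable def zt (ρ : Fin D → ℝ) (i : Fin D) (θ : Fin D → ℝ) : ℂ := circ (ρ i) (θ i)

include hρ in
theorem zt_ne (i : Fin D) (θ : Fin D → ℝ) : zt ρ i θ ≠ 0 := by
  unfold zt
  rw [← norm_ne_zero_iff, norm_circ (hρ i).le]
  exact (hρ i).ne'

include hρ in
theorem norm_zt (i : Fin D) (θ : Fin D → ℝ) : ‖zt ρ i θ‖ = ρ i := norm_circ (hρ i).le _

include hρ in
theorem good_zt (i : Fin D) : Good (zt ρ i) := good_circ' (hρ i) i

theorem per_zt (i : Fin D) : Per (zt ρ i) := per_circ (ρ i) i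

/-- the coordinates as units -/
noncomputable def zu (θ : Fin D → ℝ) (i : Fin D) : ℂˣ := Units.mk0 (zt ρ i θ) (zt_ne hρ i θ)

/-- the value of a Laurent polynomial -/
noncomputable def ev (P : LP K D) (θ : Fin D → ℝ) : ℂ := lev σ (zu hρ θ) P

/-- the bound -/
noncomputable def nn (ρ : Fin D → ℝ) (σ : K →+* ℂ) (P : LP K D) : ℝ :=
  ∑ m ∈ P.coeff.support, ‖σ (P.coeff m)‖ * ∏ i, ρ i ^ (m i)

variable {σ}

theorem val_mon (θ : Fin D → ℝ) (m : Fin D → ℤ) :
    ((mon (zu hρ θ) m : ℂˣ) : ℂ) = ∏ i, zt ρ i θ ^ (m i) := by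
  unfold mon
  rw [Units.coe_prod]
  exact Finset.prod_congr rfl fun i _ => by rw [Units.val_zpow_eq_zpow_val]; rfl

theorem ev_eq (P : LP K D) (θ : Fin D → ℝ) :
    ev hρ σ P θ = ∑ m ∈ P.coeff.support, σ (P.coeff m) * ∏ i, zt ρ i θ ^ (m i) := by
  unfold ev
  rw [lev_eq]
  exact Finset.sum_congr rfl fun m _ => by rw [val_mon]

theorem ev_mul (P Q : LP K D) (θ : Fin D → ℝ) :
    ev hρ σ (P * Q) θ = ev hρ σ P θ * ev hρ σ Q θ := map_mul _ _ _

theorem ev_add (P Q : LP K D) (θ : Fin D → ℝ) :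
    ev hρ σ (P + Q) θ = ev hρ σ P θ + ev hρ σ Q θ := map_add _ _ _

theorem ev_sub (P Q : LP K D) (θ : Fin D → ℝ) :
    ev hρ σ (P - Q) θ = ev hρ σ P θ - ev hρ σ Q θ := map_sub _ _ _

theorem ev_one (θ : Fin D → ℝ) : ev hρ σ (1 : LP K D) θ = 1 := map_one _

theorem ev_pow (P : LP K D) (k : ℕ) (θ : Fin D → ℝ) :
    ev hρ σ (P ^ k) θ = ev hρ σ P θ ^ k := map_pow _ _ _

theorem ev_single (m : Fin D → ℤ) (c : K) (θ : Fin D → ℝ) :
    ev hρ σ (AddMonoidAlgebra.single m c : LP K D) θ = σ c * ∏ i, zt ρ i θ ^ (m i) := by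
  unfold ev
  rw [lev_single, val_mon]

include hρ in
theorem norm_mon (m : Fin D → ℤ) (θ : Fin D → ℝ) :
    ‖∏ i, zt ρ i θ ^ (m i)‖ = ∏ i, ρ i ^ (m i) := by
  rw [norm_prod]
  exact Finset.prod_congr rfl fun i _ => by rw [norm_zpow, norm_zt hρ]

theorem norm_ev_le (P : LP K D) (θ : Fin D → ℝ) : ‖ev hρ σ P θ‖ ≤ nn ρ σ P := by
  rw [ev_eq]
  refine (norm_sum_le _ _).trans (le_of_eq ?_)
  exact Finset.sum_congr rfl fun m _ => by rw [norm_mul, norm_mon hρ]

include hρ in
theorem good_mon (m : Fin D → ℤ) : Good fun θ : Fin D → ℝ => ∏ i, zt ρ i θ ^ (m i) :=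
  (rg_prod (ρ := ρ) Finset.univ fun i => good_zpow (good_zt hρ i) (m i)).1

theorem contDiff_ev (P : LP K D) : ContDiff ℝ 2 (ev hρ σ P) := by
  have e : ev hρ σ P = fun θ => ∑ m ∈ P.coeff.support, σ (P.coeff m) * ∏ i, zt ρ i θ ^ (m i) :=
    funext fun θ => ev_eq hρ P θ
  rw [e]
  exact ContDiff.sum fun m _ => contDiff_const.mul (good_mon hρ m).smooth

theorem per_ev (P : LP K D) : Per (ev hρ σ P) := by
  intro θ j
  rw [ev_eq, ev_eq]
  refine Finset.sum_congr rfl fun m _ => ?_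
  congr 1
  exact Finset.prod_congr rfl fun i _ => by rw [per_zt i θ j]

theorem circ_int_zpow (r : ℝ) (m : ℤ) :
    ∫ t in Icc (0 : ℝ) 1, circ r t ^ m = if m = 0 then 1 else 0 := by
  by_cases hm : m = 0
  · subst hm
    simp
  · rw [if_neg hm, integral_Icc_eq_integral_Ioc, ← intervalIntegral.integral_of_le zero_le_one]
    have hc : (m * (2 * Real.pi * Complex.I) : ℂ) ≠ 0 := by
      have h1 : (m : ℂ) ≠ 0 := by exact_mod_cast hm
      simp [Real.pi_ne_zero, h1]
    have h1 : ∀ t : ℝ, circ r t ^ m = (r : ℂ) ^ m *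
        Complex.exp ((m * (2 * Real.pi * Complex.I)) * t) := by
      intro t
      unfold circ
      rw [mul_zpow, ← Complex.exp_int_mul]
      congr 2
      ring
    simp only [h1]
    rw [intervalIntegral.integral_const_mul, integral_exp_mul_complex hc]
    have h2 : Complex.exp (m * (2 * Real.pi * Complex.I) * (1 : ℝ)) = 1 := by
      rw [Complex.ofReal_one, mul_one]
      exact Complex.exp_int_mul_two_pi_mul_I m
    rw [h2]
    simp

include hρ in
theorem int_mon (m : Fin D → ℤ) :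
    ∫ θ in Icc (0 : Fin D → ℝ) 1, ∏ i, zt ρ i θ ^ (m i) = if m = 0 then 1 else 0 := by
  rw [restrict_Icc]
  have h1 := integral_fintype_prod_eq_prod (𝕜 := ℂ) (ι := Fin D)
    (μ := fun _ => (volume : Measure ℝ).restrict (Icc 0 1)) fun i t => circ (ρ i) t ^ (m i)
  refine Eq.trans h1 ?_
  simp only [fun i => circ_int_zpow (ρ i) (m i)]
  by_cases hm : m = 0
  · subst hm
    simp
  · rw [if_neg hm]
    obtain ⟨i, hi⟩ := Function.ne_iff.1 hm
    exact Finset.prod_eq_zero (Finset.mem_univ i) (if_neg hi)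

/-- **The constant coefficient.** -/
theorem int_ev (P : LP K D) :
    ∫ θ in Icc (0 : Fin D → ℝ) 1, ev hρ σ P θ = σ (P.coeff 0) := by
  simp only [ev_eq hρ P]
  rw [integral_finsetSum]
  · simp only [integral_const_mul, int_mon hρ]
    by_cases h : (0 : Fin D → ℤ) ∈ P.coeff.support
    · rw [Finset.sum_eq_single 0]
      · rw [if_pos rfl, mul_one]
      · intro m _ hm
        rw [if_neg hm, mul_zero]
      · intro h'
        exact absurd h h'
    · rw [Finsupp.notMem_support_iff.1 h, map_zero]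
      refine Finset.sum_eq_zero fun m hm => ?_
      rw [if_neg, mul_zero]
      rintro rfl
      exact h hm
  · intro m _
    exact (int_box (good_mon hρ m).smooth.continuous).const_mul _

include hρ in
theorem norm_coeff_le (P : LP K D) (k : ℕ) : ‖σ ((P ^ k).coeff 0)‖ ≤ nn ρ σ P ^ k := by
  rw [← int_ev hρ]
  refine (norm_integral_le_integral_norm _).trans ?_
  have h1 : ∫ θ in Icc (0 : Fin D → ℝ) 1, ‖ev hρ σ (P ^ k) θ‖ ≤
      ∫ _θ in Icc (0 : Fin D → ℝ) 1, nn ρ σ P ^ k := by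
    refine integral_mono (int_box (contDiff_ev hρ _).continuous.norm) (int_box continuous_const)
      fun θ => ?_
    simp only
    rw [ev_pow, norm_pow]
    exact pow_le_pow_left₀ (norm_nonneg _) (norm_ev_le hρ P θ) k
  rwa [int_const] at h1

/-- **Integrals of analytic functions of a Laurent polynomial.** -/
theorem hasSum_int (P : LP K D) {r : ℝ} (hP : ∀ θ, ‖ev hρ σ P θ‖ ≤ r) {g : ℂ → ℂ} {c : ℕ → ℂ}
    (hs : ∀ u : ℂ, ‖u‖ ≤ r → HasSum (fun m => c m * u ^ m) (g u))
    (hsum : Summable fun m => ‖c m‖ * r ^ m) :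
    HasSum (fun m => c m * σ ((P ^ m).coeff 0)) (∫ θ in Icc (0 : Fin D → ℝ) 1, g (ev hρ σ P θ)) := by
  have hr : 0 ≤ r := (norm_nonneg _).trans (hP 0)
  have h1 := hasSum_integral_of_dominated_convergence
    (μ := volume.restrict (Icc (0 : Fin D → ℝ) 1)) (F := fun m θ => c m * ev hρ σ P θ ^ m)
    (f := fun θ => g (ev hρ σ P θ)) (bound := fun m _ => ‖c m‖ * r ^ m) (fun m => by
      exact (continuous_const.mul ((contDiff_ev hρ P).continuous.pow m)).aestronglyMeasurable)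
    (fun m => Filter.Eventually.of_forall fun θ => by
      rw [norm_mul, norm_pow]
      exact mul_le_mul_of_nonneg_left (pow_le_pow_left₀ (norm_nonneg _) (hP θ) m)
        (norm_nonneg _)) (Filter.Eventually.of_forall fun _ => hsum) (by
      exact int_box continuous_const) (Filter.Eventually.of_forall fun θ => hs _ (hP θ))
  have h2 : ∀ m : ℕ, ∫ θ in Icc (0 : Fin D → ℝ) 1, c m * ev hρ σ P θ ^ m =
      c m * σ ((P ^ m).coeff 0) := by
    intro m
    rw [integral_const_mul, ← int_ev hρ]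
    simp only [ev_pow]
  simp only [h2] at h1
  exact h1

end ev

end Pool.Agent.Run7.h406.Fc
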