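import Pool.Agent.N65.TL.Fam
set_option autoImplicit false

/-!
The families `W(z) = λ ∏_e (x - a_e)` over the line.
-/

namespace Pool.Agent.Run7.h406.Fc

open Pool.Agent.TH826.MK

open Pool.Agent.N65.TL

instance uniq01 : Unique (Fin (0 + 1)) := inferInstanceAs (Unique (Fin 1))

section line

variable {K : Type*} [Field K] {s m : ℕ} (W : LP K (s + 1)) (a : Fin (m + 1) → K) (lam : K)

/-- The family `W(z) = λ (x - a_0) ... (x - a_m)`. -/
noncomputable def lineFam : Fam K s 0 m where
  W := W
  g := 1
  w := fun _ => 0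
  c := fun _ _ => 1
  a := a

theorem det_mat (T : Fin (0 + 1) → Fin (m + 1)) : ((lineFam W a).mat T).det = 1 :=
  Matrix.det_unique _

theorem Del_line : (lineFam W a).Del = 1 := by
  classical
  unfold Fam.Del
  refine Finset.prod_eq_one fun T _ => ?_
  rw [det_mat, if_neg one_ne_zero]

theorem form_line (e : Fin (m + 1)) : (lineFam W a).form e =
    MvPolynomial.X 0 - MvPolynomial.C (a e) := by
  unfold Fam.form lineFam
  simp

theorem Phi_line : (lineFam W a).Phi lam = MvPolynomial.C lam *
    ∏ e, (MvPolynomial.X 0 - MvPolynomial.C (a e)) := by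
  unfold Fam.Phi
  congr 1
  rw [show (lineFam W a).g = 1 from rfl, one_mul]
  refine Finset.prod_congr rfl fun e _ => ?_
  show (lineFam W a).form e ^ (1 : ℕ) = _
  rw [pow_one, form_line]

theorem eval_Phi (σ : K →+* ℂ) (x : Fin (0 + 1) → ℂ) :
    MvPolynomial.eval₂ σ x ((lineFam W a).Phi lam) = σ lam * ∏ e, (x 0 - σ (a e)) := by
  rw [Phi_line, MvPolynomial.eval₂_mul, MvPolynomial.eval₂_C, MvPolynomial.eval₂_prod]
  congr 1
  refine Finset.prod_congr rfl fun e _ => ?_
  rw [MvPolynomial.eval₂_sub, MvPolynomial.eval₂_X, MvPolynomial.eval₂_C]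

theorem vertex_line (T : Fin (0 + 1) → Fin (m + 1)) : (lineFam W a).vertex T 0 = a (T 0) := by
  unfold Fam.vertex
  have h1 : (lineFam W a).mat T = 1 := by
    ext i j
    rw [Subsingleton.elim i j, Matrix.one_apply_eq]
    rfl
  rw [h1, inv_one]
  simp [lineFam]

theorem hi_line (T : Fin (0 + 1) → Fin (m + 1)) (i : Fin (0 + 1)) :
    (lineFam W a).hi T i = Fin.last m := by
  classical
  unfold Fam.hi
  refine le_antisymm (Fin.le_last _) ?_
  refine Finset.le_sup (f := id) (Finset.mem_filter.2 ⟨Finset.mem_univ _, ?_⟩)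
  rw [det_mat]
  exact one_ne_zero

theorem kap_line (T : Fin (0 + 1) → Fin (m + 1)) (i : Fin (0 + 1)) :
    (lineFam W a).kap T i = 1 := by
  classical
  unfold Fam.kap
  have h : ((lineFam W a).mat (Function.update T i ((lineFam W a).hi T i))).det /
      ((lineFam W a).mat T).det = 1 := by
    rw [det_mat, det_mat, div_one]
  split_ifs with h0
  · rfl
  · apply Units.ext
    rw [Units.val_mk0, h, Units.val_one]

theorem u_line (T : Fin (0 + 1) → Fin (m + 1)) (i : Fin (0 + 1)) :
    (lineFam W a).u lam T i = (lineFam W a).L lam (T i) / (lineFam W a).L lam (Fin.last m) := by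
  unfold Fam.u
  rw [kap_line, map_one, one_mul, hi_line]

variable {a} in
theorem nbc_line (ha : Function.Injective a) (T : Fin (0 + 1) → Fin (m + 1)) :
    (lineFam W a).Nbc T ↔ T 0 ≠ Fin.last m := by
  constructor
  · rintro ⟨-, -, h, -⟩ he
    obtain ⟨e, h1, -⟩ := h 0
    rw [he] at h1
    exact absurd h1 (not_lt.2 (Fin.le_last e))
  · intro h
    refine ⟨Subsingleton.strictMono T, ?_, fun i => ⟨Fin.last m, ?_, ?_⟩, fun e he hv => ?_⟩
    · rw [det_mat]
      exact one_ne_zero
    · rw [Subsingleton.elim i 0]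
      exact lt_of_le_of_ne (Fin.le_last _) h
    · rw [det_mat]
      exact one_ne_zero
    · exfalso
      have h1 : ∑ j, (lineFam W a).c e j * (lineFam W a).vertex T j = a (T 0) := by
        rw [Fintype.sum_unique, show (default : Fin (0 + 1)) = 0 from rfl, vertex_line]
        show 1 * a (T 0) = _
        rw [one_mul]
      rw [h1] at hv
      exact he 0 (ha hv)

variable {W a} in
theorem admissible_line (hW : Interior W) (hT : Tame W) (ha : Function.Injective a)
    (hint : ∀ e, IsIntegral ℤ (a e)) : (lineFam W a).Admissible where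
  interior := hW
  tame := hT
  int_c := fun _ _ => isIntegral_one
  int_a := hint
  distinct := fun e e' hne κ h => by
    have h1 : (1 : K) = κ * 1 := h.1 0
    rw [mul_one] at h1
    have h2 : a e = κ * a e' := h.2
    rw [← h1, one_mul] at h2
    exact hne (ha h2)
  g_int := fun k => by
    show IsIntegral ℤ (MvPolynomial.coeff k (1 : MvPolynomial (Fin (0 + 1)) K))
    rw [MvPolynomial.coeff_one]
    split_ifs
    · exact isIntegral_one
    · exact isIntegral_zero
  g_vtx := fun T _ => by
    show MvPolynomial.eval _ (1 : MvPolynomial (Fin (0 + 1)) K) ≠ 0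
    rw [map_one]
    exact one_ne_zero

variable {W a lam} in
theorem unram_line.{u, v} {K : Type u} [Field K] {s m : ℕ} {W : LP K (s + 1)}
    {a : Fin (m + 1) → K} {lam : K} (hW : Interior W) (hT : Tame W) (ha : Function.Injective a)
    (hint : ∀ e, IsIntegral ℤ (a e)) (hlam : IsIntegral ℤ lam) :
    Fam.Unram.{u, v} (lineFam W a) lam := by
  refine Fam.unram (admissible_line hW hT ha hint) hlam ?_
  rw [Del_line, one_pow, mul_one]

end line

end Pool.Agent.Run7.h406.Fc
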