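import Pool.Agent.Run7.h406.Fc.Vert
import Pool.Agent.Run7.h406.Fb.Form
set_option autoImplicit false

/-!
The matrix of the regulators on the tori `|z_i| = ρ_i`, `x = φ_k(κ W(z))`.
-/

namespace Pool.Agent.Run7.h406.Fc

open MeasureTheory Set Filter Topology Metric Polynomial

open Pool.Agent.TH826.MK

open Pool.Agent.Y775.CC

open Pool.Agent.N65.TL (LP)

open Pool.Agent.N686.DI (fc qf re_aa sub_eq_exp prod_sub hasSum_fc exists_logs)

open Pool.Agent.Run7.h406.Fb (form_ge)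

section comp

variable {D : ℕ} {V : Set ℂ} {g : ℂ → ℂ}

theorem contDiff_comp (hg : DifferentiableOn ℂ g V) (hVo : IsOpen V) {w : (Fin D → ℝ) → ℂ}
    (hw : ContDiff ℝ 2 w) (hwV : ∀ θ, w θ ∈ V) : ContDiff ℝ 2 fun θ => g (w θ) := by
  rw [contDiff_iff_contDiffAt]
  intro θ
  have h1 : ContDiffAt ℂ 2 g (w θ) := (hg.analyticAt (hVo.mem_nhds (hwV θ))).contDiffAt
  exact ContDiffAt.comp (g := g) (f := w) θ (h1.restrict_scalars ℝ) hw.contDiffAt

end comp

section quad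

variable {K : Type*} [Field K] {D : ℕ} {ρ : Fin D → ℝ} (hρ : ∀ i, 0 < ρ i) {σ : K →+* ℂ}
  {W : LP K D} {v : Fin D → ℤ} (hD : Dom ρ σ W v) {G : ℂ[X]} {n : ℕ} {V : Set ℂ}
  {φ : Fin n → ℂ → ℂ} (H : Branches G V φ) {R : ℝ} (hR : 0 < R) (hV : ∀ z : ℂ, ‖z‖ ≤ R → z ∈ V)
  {κ : ℂ} (hκ0 : κ ≠ 0) (hκ : ‖κ‖ * nn ρ σ W < R)

/-- the functions on the tori -/
noncomputable def ff (W : LP K D) (σ : K →+* ℂ) (φ : Fin n → ℂ → ℂ) (κ : ℂ) (k i : Fin n)
    (θ : Fin D → ℝ) : ℂ := φ k (κ * ev hρ σ W θ) - φ i 0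

theorem norm_zeta (θ : Fin D → ℝ) : ‖κ * ev hρ σ W θ‖ ≤ ‖κ‖ * nn ρ σ W := by
  rw [norm_mul]
  exact mul_le_mul_of_nonneg_left (norm_ev_le hρ W θ) (norm_nonneg _)

include hV hκ in
theorem zeta_mem (θ : Fin D → ℝ) : κ * ev hρ σ W θ ∈ V :=
  hV _ ((norm_zeta hρ θ).trans hκ.le)

theorem contDiff_zeta : ContDiff ℝ 2 fun θ => κ * ev hρ σ W θ :=
  contDiff_const.mul (contDiff_ev hρ W)

theorem per_zeta : Per fun θ => κ * ev hρ σ W θ := fun θ j => by
  show κ * ev hρ σ W (θ + Pi.single j 1) = _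
  rw [per_ev hρ W θ j]

include hD hκ0 in
theorem good_zeta : Good fun θ => κ * ev hρ σ W θ := (good_const hκ0).mul (good_ev hρ hD)

include hD hκ0 in
theorem rg_zeta : rg ρ (fun θ => κ * ev hρ σ W θ) = Real.log ‖κ‖ + Real.log ‖σ (W.coeff v)‖ := by
  rw [rg_mul (good_const hκ0) (good_ev hρ hD), rg_const, rg_ev hρ hD]

include hD H hR hV hκ0 hκ in
theorem good_ff (k i : Fin n) : Good (ff hρ W σ φ κ k i) := by
  refine ⟨(contDiff_comp (H.differentiableOn k) H.isOpen (contDiff_zeta hρ)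
    (zeta_mem hρ hV hκ)).sub contDiff_const, fun θ h => ?_⟩
  have h0V : (0 : ℂ) ∈ V := hV 0 (by rw [norm_zero]; exact hR.le)
  have h1 := (H.eq_of_eq (zeta_mem hρ hV hκ θ) h0V (sub_eq_zero.1 h)).2
  exact (good_zeta hρ hD hκ0).ne_zero θ h1

theorem per_ff (k i : Fin n) : Per (ff hρ W σ φ κ k i) := fun θ j => by
  unfold ff
  rw [per_ev hρ W θ j]

include hD H hR hV hκ0 hκ in
theorem rg_ff {aa : Fin n → Fin n → ℂ → ℂ} (haad : ∀ i j, DifferentiableOn ℂ (aa i j) V)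
    (haa : ∀ i j, ∀ u ∈ V, Complex.exp (aa i j u) = psi φ i j 0 u) (k i : Fin n) :
    ∃ S : ℂ, HasSum (fun m : ℕ => (m : ℂ) * (-((κ / R) ^ m * σ ((W ^ m).coeff 0)) / m) *
      fc R (aa k i) m) S ∧
    rg ρ (ff hρ W σ φ κ k i) = -((if k = i then Real.log (R / ‖κ‖) -
      Real.log ‖σ (W.coeff v)‖ else 0) + (qf φ R k i + S.re)) := by
  have h0V : (0 : ℂ) ∈ V := hV 0 (by rw [norm_zero]; exact hR.le)
  have hRc : (R : ℂ) ≠ 0 := by exact_mod_cast hR.ne'
  have hκn : 0 < ‖κ‖ := norm_pos_iff.2 hκ0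
  have hn0 := nn_nonneg (σ := σ) hρ W
  -- the series
  have hfc := fun {w : ℂ} (hw : ‖w‖ < R) => hasSum_fc hR hV (haad k i) hw
  have hB := hasSum_int hρ W (norm_ev_le hρ W) (g := fun u => aa k i (κ * u))
    (c := fun m => fc R (aa k i) m * (κ / R) ^ m) (fun u hu => by
      have h1 := hfc (w := κ * u) (by
        rw [norm_mul]
        exact (mul_le_mul_of_nonneg_left hu (norm_nonneg _)).trans_lt hκ)
      refine (funext fun m => ?_ : (fun m : ℕ => fc R (aa k i) m * (κ / R) ^ m * u ^ m) = _) ▸ h1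
      rw [mul_assoc, ← mul_pow]
      congr 2
      ring) (by
      have h1 := (hfc (w := κ * nn ρ σ W) (by
        rw [norm_mul, Complex.norm_real, Real.norm_of_nonneg hn0]
        exact hκ)).summable.norm
      refine h1.congr fun m => ?_
      rw [norm_mul, norm_pow, norm_mul, norm_pow, norm_div, norm_div, norm_mul,
        Complex.norm_real (nn ρ σ W), Real.norm_of_nonneg hn0, mul_assoc, ← mul_pow]
      congr 2
      ring)
  set I0 : ℂ := ∫ θ in Icc (0 : Fin D → ℝ) 1, aa k i (κ * ev hρ σ W θ) with hI0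
  have hf0 : fc R (aa k i) 0 = aa k i 0 := by
    have h1 := hfc (w := 0) (by rw [norm_zero]; exact hR)
    have h2 : HasSum (fun m : ℕ => fc R (aa k i) m * (0 / R : ℂ) ^ m) (fc R (aa k i) 0) := by
      have h3 := hasSum_single (f := fun m : ℕ => fc R (aa k i) m * (0 / R : ℂ) ^ m) 0
        (fun m hm => by rw [zero_div, zero_pow hm, mul_zero])
      simpa using h3
    exact h2.unique h1
  have hS : HasSum (fun m : ℕ => (m : ℂ) * (-((κ / R) ^ m * σ ((W ^ m).coeff 0)) / m) *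
      fc R (aa k i) m) (aa k i 0 - I0) := by
    have h1 := (hasSum_ite_eq 0 (aa k i 0)).sub hB
    refine (funext fun m => ?_ : (fun m : ℕ => (m : ℂ) *
      (-((κ / R) ^ m * σ ((W ^ m).coeff 0)) / m) * fc R (aa k i) m) = fun m : ℕ =>
      (if m = 0 then aa k i 0 else 0) -
      fc R (aa k i) m * (κ / R) ^ m * σ ((W ^ m).coeff 0)) ▸ h1
    rcases Nat.eq_zero_or_pos m with hm | hm
    · subst hm
      rw [if_pos rfl, hf0, pow_zero, pow_zero, AddMonoidAlgebra.coeff_one_zero, map_one]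
      simp
    · have hm0 : (m : ℂ) ≠ 0 := by exact_mod_cast hm.ne'
      rw [if_neg hm.ne']
      field_simp
      ring
  refine ⟨_, hS, ?_⟩
  -- the functional
  set E : (Fin D → ℝ) → ℂ := fun θ => aa k i (κ * ev hρ σ W θ) with hE
  have hEc : ContDiff ℝ 2 E := contDiff_comp (haad k i) H.isOpen (contDiff_zeta hρ)
    (zeta_mem hρ hV hκ)
  have hEp : Per E := fun θ j => by
    simp only [hE]
    rw [per_ev hρ W θ j]
  have hgE : Good fun θ => Complex.exp (E θ) := ⟨hEc.cexp, fun _ => Complex.exp_ne_zero _⟩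
  have hrE : rg ρ (fun θ => Complex.exp (E θ)) = I0.re := by
    rw [rg_exp hEc hEp]
    have h3 := Complex.reCLM.integral_comp_comm (μ := volume.restrict (Icc (0 : Fin D → ℝ) 1))
      (φ := E) (int_box hEc.continuous)
    simp only [Complex.reCLM_apply] at h3
    exact h3
  have hff : ff hρ W σ φ κ k i = fun θ => (if k = i then κ * ev hρ σ W θ else 1) *
      Complex.exp (E θ) := by
    funext θ
    exact sub_eq_exp haa k i (zeta_mem hρ hV hκ θ)
  have hre : (aa k i 0).re = Real.log ‖psi φ k i 0 0‖ := re_aa haa k i h0V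
  have hlog : Real.log (R / ‖κ‖) = Real.log R - Real.log ‖κ‖ := Real.log_div hR.ne' hκn.ne'
  rw [hff]
  unfold qf
  rw [Complex.sub_re, hre]
  by_cases h : k = i
  · simp only [if_pos h]
    rw [rg_mul (good_zeta hρ hD hκ0) hgE, rg_zeta hρ hD hκ0, hrE, hlog]
    ring
  · simp only [if_neg h, one_mul]
    rw [hrE]
    ring

include hD H hR hV hκ0 hκ in
theorem sum_rg (i : Fin n) : ∑ k, rg ρ (ff hρ W σ φ κ k i) =
    rg ρ (fun θ => (-1) ^ n * -(κ * ev hρ σ W θ)) := by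
  have h0V : (0 : ℂ) ∈ V := hV 0 (by rw [norm_zero]; exact hR.le)
  rw [← (rg_prod (ρ := ρ) Finset.univ fun k => good_ff hρ hD H hR hV hκ0 hκ k i).2]
  congr 1
  funext θ
  exact prod_sub H h0V i (zeta_mem hρ hV hκ θ)

include hD H hR hV hκ0 hκ in
/-- **The quadratic form is definite.** -/
theorem quad_neg {B : ℝ} (hB : ∀ m : ℕ, ‖σ ((W ^ m).coeff 0)‖ ≤ B ^ m)
    (hcrit : B ^ 2 + ‖σ (W.coeff v)‖ ^ 2 < (R / ‖κ‖) ^ 2) (c : Fin n → ℝ) (hc : ∑ i, c i = 0)
    (hc0 : c ≠ 0) : ∑ k, ∑ i, c k * c i * rg ρ (ff hρ W σ φ κ k i) < 0 := by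
  have h0V : (0 : ℂ) ∈ V := hV 0 (by rw [norm_zero]; exact hR.le)
  have hκn : 0 < ‖κ‖ := norm_pos_iff.2 hκ0
  have hwn : 0 < ‖σ (W.coeff v)‖ := norm_pos_iff.2 (sig_ne hρ hD)
  obtain ⟨aa, haad, haa⟩ := exists_logs H h0V
  choose S hS hrg using fun k i => rg_ff hρ hD H hR hV hκ0 hκ haad haa k i
  set t : ℝ := R / ‖κ‖ with ht
  have ht0 : 0 < t := by positivity
  set x : ℝ := B ^ 2 / t ^ 2 with hx
  have hx0 : 0 ≤ x := by positivity
  have hx1 : x < 1 := by
    rw [hx, div_lt_one (by positivity)]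
    have : 0 < ‖σ (W.coeff v)‖ ^ 2 := by positivity
    linarith
  set A : ℝ := -Real.log (1 - x) with hA
  have hβ : ∀ M : ℕ, ∑ m ∈ Finset.Icc 1 M, (m : ℝ) *
      ‖-((κ / R) ^ m * σ ((W ^ m).coeff 0)) / m‖ ^ 2 ≤ A := by
    intro M
    have h1 := Real.hasSum_pow_div_log_of_abs_lt_one (x := x) (by rw [abs_of_nonneg hx0]; exact hx1)
    have h2 := sum_le_hasSum (Finset.range M) (fun m _ => by positivity) h1
    refine le_trans ?_ h2
    have h3 : ∑ m ∈ Finset.Icc 1 M, x ^ m / m = ∑ m ∈ Finset.range M, x ^ (m + 1) / (m + 1) := by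
      have h := Finset.sum_Ico_add' (fun m : ℕ => x ^ m / (m : ℝ)) 0 M 1
      rw [Finset.range_eq_Ico]
      refine Eq.trans ?_ (h.symm.trans (Finset.sum_congr rfl fun m _ => by push_cast; rfl))
      rfl
    rw [← h3]
    refine Finset.sum_le_sum fun m hm => ?_
    have hm1 : (1 : ℝ) ≤ m := by exact_mod_cast (Finset.mem_Icc.1 hm).1
    have e1 : ‖-((κ / R) ^ m * σ ((W ^ m).coeff 0)) / m‖ = (1 / t) ^ m *
        ‖σ ((W ^ m).coeff 0)‖ / m := by
      rw [norm_div, norm_neg, norm_mul, norm_pow, Complex.norm_natCast, norm_div, Complex.norm_real,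
        Real.norm_of_nonneg hR.le, ht, one_div_div]
    have e2 : (1 / t) ^ m * ‖σ ((W ^ m).coeff 0)‖ / m ≤ (1 / t) ^ m * B ^ m / m :=
      div_le_div_of_nonneg_right (mul_le_mul_of_nonneg_left (hB m) (by positivity)) (by linarith)
    rw [e1]
    calc (m : ℝ) * ((1 / t) ^ m * ‖σ ((W ^ m).coeff 0)‖ / m) ^ 2 ≤
        m * ((1 / t) ^ m * B ^ m / m) ^ 2 :=
          mul_le_mul_of_nonneg_left (pow_le_pow_left₀ (by positivity) e2 2) (by linarith)
      _ = x ^ m / m := by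
          rw [hx, ← mul_pow, div_pow, ← pow_mul, mul_comm m 2, pow_mul, mul_pow, one_div, inv_pow]
          have hm0 : (m : ℝ) ≠ 0 := by linarith
          have h5 : ((t ^ 2)⁻¹ * B ^ 2) = B ^ 2 / t ^ 2 := by rw [div_eq_mul_inv, mul_comm]
          rw [h5]
          field_simp
  have h1 := form_ge H hR hV haad haa c hc hβ hS
  have hc2 : 0 < ∑ i, c i ^ 2 := by
    obtain ⟨i, hi⟩ := Function.ne_iff.1 hc0
    refine Finset.sum_pos' (fun i _ => sq_nonneg _) ⟨i, Finset.mem_univ i, ?_⟩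
    have hi' : c i ≠ 0 := hi
    positivity
  have hpos : 0 < Real.log t - Real.log ‖σ (W.coeff v)‖ - A / 2 := by
    have h2 : Real.log (‖σ (W.coeff v)‖ ^ 2) < Real.log (t ^ 2 * (1 - x)) := by
      refine Real.log_lt_log (by positivity) ?_
      have h3 : t ^ 2 * (1 - x) = t ^ 2 - B ^ 2 := by
        rw [hx]
        field_simp
      rw [h3]
      linarith
    rw [Real.log_mul (by positivity) (by linarith), Real.log_pow, Real.log_pow] at h2
    push_cast at h2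
    rw [hA]
    linarith
  have h2 : ∑ k, ∑ i, c k * c i * rg ρ (ff hρ W σ φ κ k i) =
      -((Real.log t - Real.log ‖σ (W.coeff v)‖) * ∑ i, c i ^ 2 +
        ∑ k, ∑ i, c k * c i * (qf φ R k i + (S k i).re)) := by
    rw [Finset.mul_sum, ← Finset.sum_add_distrib, ← Finset.sum_neg_distrib]
    refine Finset.sum_congr rfl fun k _ => ?_
    have h3 : (Real.log t - Real.log ‖σ (W.coeff v)‖) * c k ^ 2 =
        ∑ i, if k = i then (Real.log t - Real.log ‖σ (W.coeff v)‖) * (c k * c i) else 0 := by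
      rw [Finset.sum_ite_eq, if_pos (Finset.mem_univ k)]
      ring
    rw [h3, ← Finset.sum_add_distrib, ← Finset.sum_neg_distrib]
    refine Finset.sum_congr rfl fun i _ => ?_
    rw [hrg]
    by_cases h : k = i
    · rw [if_pos h, if_pos h]
      ring
    · rw [if_neg h, if_neg h]
      ring
  rw [h2]
  nlinarith

end quad

end Pool.Agent.Run7.h406.Fc
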