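import Pool.Agent.Run7.h406.Fc.Line
import Pool.Agent.Run7.h406.Fc.Quad
import Pool.Agent.Run7.h406.Fc.Det
import Pool.Agent.Run7.h406.Fb.Lin
import Pool.Agent.N686.DI.Main
set_option autoImplicit false

/-!
The independence of the regulators on the fibrations `W(z) = λ ∏_e (x - a_e)`.
-/

namespace Pool.Agent.Run7.h406.Fc

open MeasureTheory Set Filter Topology Metric Polynomial

open Pool.Agent.TH826.MK

open Pool.Agent.Y775.CC

open Pool.Agent.N65.TL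

open Pool.Agent.Run7.h406.Fb (det_ne_zero_of_form)

section main

variable {K : Type*} [Field K] {s m : ℕ} {ρ : Fin (s + 1) → ℝ} (hρ : ∀ i, 0 < ρ i) {σ : K →+* ℂ}
  {W : LP K (s + 1)} {v : Fin (s + 1) → ℤ} (hD : Dom ρ σ W v) {lam : K} {a : Fin (m + 1) → K}

/-- the points of the tori -/
theorem fpt {X : ℂ} {θ : Fin (s + 1) → ℝ} (hv : ev hρ σ W θ = σ lam * ∏ e, (X - σ (a e)))
    (hne : ev hρ σ W θ ≠ 0) :
    FPt σ W ((lineFam W a).Phi lam) (fun _ => X) fun i => zt ρ i θ := by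
  refine ⟨fun i => zt_ne hρ i θ, ?_, ?_⟩
  · rw [eval_Phi, ← hv, ev_eq]
  · rw [eval_Phi, ← hv]
    exact hne

/-- A torus and its regulators. -/
theorem exists_torus {X : (Fin (s + 1) → ℝ) → ℂ} (hX : ContDiff ℝ 2 X) (hXp : Per X)
    (hv : ∀ θ, ev hρ σ W θ = σ lam * ∏ e, (X θ - σ (a e))) (hne : ∀ θ, ev hρ σ W θ ≠ 0) :
    ∃ Γ : Torus ((lineFam W a).Op lam) (s + (0 + 1)),
      (∀ θ x, Γ.e θ ((lineFam W a).cst lam x) = σ x) ∧
      ∀ T : Fin (0 + 1) → Fin (m + 1), Γ.reg ((lineFam W a).sym lam T) =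
        pairing (d := s + 1) (entr (esum s 0) ρ fun θ =>
          (X θ - σ (a (T 0))) / (X θ - σ (a (Fin.last m)))) := by
  have hpt := fun θ => fpt hρ (hv θ) (hne θ)
  set Γ : Torus (FOpen W ((lineFam W a).Phi lam)) (s + 1) :=
    mkF (d := 0) (X := fun θ _ => X θ) (Z := zt ρ) (contDiff_pi.2 fun _ => hX)
      (fun i => good_zt hρ i) hpt (fun θ j => funext fun _ => hXp θ j) (fun i => per_zt i) with hΓ
  have he : ∀ θ b, Γ.e θ b = (hpt θ).evA b := fun θ b => rfl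
  have hz : ∀ i θ, Γ.e θ ((fz W ((lineFam W a).Phi lam) i : (FOpen W ((lineFam W a).Phi lam))ˣ) :
      FOpen W ((lineFam W a).Phi lam)) = zt ρ i θ := by
    intro i θ
    rw [he, FPt.evA_fz]
  have hL : ∀ e θ, Γ.e θ (((lineFam W a).L lam e : ((lineFam W a).Op lam)ˣ) :
      (lineFam W a).Op lam) = X θ - σ (a e) := by
    intro e θ
    rw [he]
    unfold Fam.L
    refine (congrArg (hpt θ).evA (coe_fdiv W _)).trans ?_
    rw [FPt.evA_fx, form_line, MvPolynomial.eval₂_sub, MvPolynomial.eval₂_X,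
      MvPolynomial.eval₂_C]
  refine ⟨Γ, fun θ x => (hpt θ).evA_fcst x, fun T => ?_⟩
  have hA : ∀ (c : Fin (s + 1) ⊕ Fin (0 + 1)) (θ : Fin (s + 1) → ℝ),
      Γ.e θ ((Sum.elim ((lineFam W a).z lam) ((lineFam W a).u lam T) c : ((lineFam W a).Op lam)ˣ) :
        (lineFam W a).Op lam) = Sum.elim (fun (i : Fin (s + 1)) (θ : Fin (s + 1) → ℝ) =>
        circ (ρ i) (θ i)) (fun _ => fun θ =>
          (X θ - σ (a (T 0))) / (X θ - σ (a (Fin.last m)))) c θ := by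
    intro c θ
    rcases c with i | i
    · exact hz i θ
    · rw [Sum.elim_inr, Sum.elim_inr, u_line, Subsingleton.elim i 0]
      have hne2 : X θ - σ (a (Fin.last m)) ≠ 0 := by
        have h1 := hne θ
        rw [hv θ] at h1
        exact (Finset.prod_ne_zero_iff.1 (right_ne_zero_of_mul h1)) _ (Finset.mem_univ _)
      have h2 := hL (Fin.last m) θ
      have h3 := hL (T 0) θ
      rw [eq_div_iff hne2, ← h2, ← h3]
      have h4 : ((lineFam W a).L lam (T 0) : (lineFam W a).Op lam) =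
          (((lineFam W a).L lam (T 0) / (lineFam W a).L lam (Fin.last m) :
            ((lineFam W a).Op lam)ˣ) : (lineFam W a).Op lam) *
          ((lineFam W a).L lam (Fin.last m) : (lineFam W a).Op lam) := by
        rw [← Units.val_mul, div_mul_cancel]
      refine Eq.trans ?_ (congrArg (Γ.e θ) h4).symm
      exact (map_mul (Γ.e θ) _ _).symm
  unfold Fam.sym
  refine (Torus.reg_symb _ _).trans ?_
  unfold Torus.pair
  refine congrArg pairing (funext fun l => funext fun θ => ?_)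
  exact hA ((esum s 0).symm l) θ

/-- the data -/
theorem exists_data (hm : 0 < m) {β : Fin (m + 1) → ℂ} (hβi : Function.Injective β) {Λ : ℂ}
    (hΛ0 : Λ ≠ 0) {M : ℝ} (hM : 0 ≤ M) (hcrit : ∀ x : ℂ, (derivative (∏ i, (X - C (β i)))).eval x = 0 →
      M < ‖Λ‖ * ‖∏ i, (x - β i)‖) :
    ∃ (μ R : ℝ) (κ : ℂ) (G : ℂ[X]) (V : Set ℂ) (φ : Fin (m + 1) → ℂ → ℂ), 0 < μ ∧ 0 < R ∧
      κ ≠ 0 ∧ M < R / ‖κ‖ ∧ Branches G V φ ∧ (∀ z : ℂ, ‖z‖ ≤ R → z ∈ V) ∧
      (∀ i, (μ : ℂ) * φ i 0 = β i) ∧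
      ∀ k z, ‖κ * z‖ ≤ R → Λ * ∏ i, ((μ : ℂ) * φ k (κ * z) - β i) = z := by
  obtain ⟨ξ, hξ, hξ0, hmin⟩ := Pool.Agent.N686.DI.exists_min_crit hm β hβi
  set c : ℝ := ‖∏ i, (ξ - β i)‖ with hc
  have hΛ : 0 < ‖Λ‖ := norm_pos_iff.2 hΛ0
  have hbig : M < ‖Λ‖ * c := hcrit ξ hξ
  obtain ⟨μ, hμ, G, φ, H, h0, hprod⟩ := Pool.Agent.N686.DI.exists_branches_at (Nat.succ_pos m) β hβi
    hξ0 (fun x hx => by
      have h1 := hmin x hx
      rw [eval_prod]
      simpa using h1)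
  have hμc : (μ : ℂ) ≠ 0 := by exact_mod_cast hμ.ne'
  have hμn : (0 : ℝ) < μ ^ (m + 1) := pow_pos hμ _
  have hc0 : 0 < c := by
    by_contra hcon
    have h1 : ‖Λ‖ * c ≤ 0 := mul_nonpos_of_nonneg_of_nonpos hΛ.le (not_lt.1 hcon)
    linarith
  obtain ⟨t, ht1, ht2⟩ : ∃ t : ℝ, M < t ∧ t < ‖Λ‖ * c := exists_between hbig
  have ht0 : 0 < t := lt_of_le_of_lt hM ht1
  set R : ℝ := t / (‖Λ‖ * μ ^ (m + 1)) with hR
  have hR0 : 0 < R := by positivity
  have hRc : R < c / μ ^ (m + 1) := by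
    rw [hR, div_lt_div_iff₀ (by positivity) hμn]
    calc t * μ ^ (m + 1) < ‖Λ‖ * c * μ ^ (m + 1) := mul_lt_mul_of_pos_right ht2 hμn
      _ = c * (‖Λ‖ * μ ^ (m + 1)) := by ring
  have hV : ∀ z : ℂ, ‖z‖ ≤ R → z ∈ ball (0 : ℂ) (c / μ ^ (m + 1)) := fun z hz => by
    rw [mem_ball_zero_iff]
    linarith
  have hk0 : Λ * (μ : ℂ) ^ (m + 1) ≠ 0 := mul_ne_zero hΛ0 (pow_ne_zero _ hμc)
  have hkn : ‖Λ * (μ : ℂ) ^ (m + 1)‖ = ‖Λ‖ * μ ^ (m + 1) := by
    rw [norm_mul, norm_pow, Complex.norm_real, Real.norm_eq_abs, abs_of_pos hμ]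
  refine ⟨μ, R, (Λ * (μ : ℂ) ^ (m + 1))⁻¹, G, _, φ, hμ, hR0, inv_ne_zero hk0, ?_, H, hV, h0,
    fun k z hz => ?_⟩
  · rw [norm_inv, hkn, hR]
    have h1 : t / (‖Λ‖ * μ ^ (m + 1)) / (‖Λ‖ * μ ^ (m + 1))⁻¹ = t := by
      field_simp
    rw [h1]
    exact ht1
  · rw [hprod k _ (hV _ hz)]
    field_simp

include hρ hD in
/-- **The independence of the regulators.** -/
theorem indep (hl : lam ≠ 0) (ha : Function.Injective a) {B : ℝ}
    (hB : ∀ k : ℕ, ‖σ ((W ^ k).coeff 0)‖ ≤ B ^ k)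
    (hcrit : ∀ x : ℂ, (derivative (∏ i, (X - C (σ (a i))))).eval x = 0 →
      nn ρ σ W < ‖σ lam‖ * ‖∏ i, (x - σ (a i))‖ ∧
      B ^ 2 + ‖σ (W.coeff v)‖ ^ 2 < (‖σ lam‖ * ‖∏ i, (x - σ (a i))‖) ^ 2) :
    (lineFam W a).Indep lam σ := by
  classical
  have hIx : ∀ T : (lineFam W a).Ix, T.1 0 ≠ Fin.last m := fun T => (nbc_line W ha T.1).1 T.2
  rcases Nat.eq_zero_or_pos m with hm | hm
  · subst hm
    have : IsEmpty (lineFam W a).Ix := ⟨fun T => hIx T (Subsingleton.elim _ _)⟩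
    exact ⟨fun T => isEmptyElim T, fun T => isEmptyElim T, by
      rw [Matrix.det_isEmpty]
      exact one_ne_zero⟩
  have hn0 := nn_nonneg (σ := σ) hρ W
  set M : ℝ := max (nn ρ σ W) (Real.sqrt (B ^ 2 + ‖σ (W.coeff v)‖ ^ 2)) with hM
  obtain ⟨μ, R, κ, G, V, φ, hμ, hR0, hκ0, hκM, H, hV, h0, hF⟩ := exists_data hm
    (β := fun i => σ (a i)) (fun i j h => ha (σ.injective h)) ((map_ne_zero σ).2 hl)
    (M := M) (hn0.trans (le_max_left _ _)) (fun x hx => by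
      obtain ⟨h1, h2⟩ := hcrit x hx
      refine max_lt h1 ?_
      rw [Real.sqrt_lt' (lt_of_le_of_lt hn0 h1)]
      exact h2)
  have hκn : 0 < ‖κ‖ := norm_pos_iff.2 hκ0
  have hκ : ‖κ‖ * nn ρ σ W < R := by
    have h1 : nn ρ σ W < R / ‖κ‖ := lt_of_le_of_lt (le_max_left _ _) hκM
    rw [lt_div_iff₀ hκn] at h1
    linarith
  have hquad : B ^ 2 + ‖σ (W.coeff v)‖ ^ 2 < (R / ‖κ‖) ^ 2 := by
    have h1 : Real.sqrt (B ^ 2 + ‖σ (W.coeff v)‖ ^ 2) < R / ‖κ‖ :=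
      lt_of_le_of_lt (le_max_right _ _) hκM
    rwa [Real.sqrt_lt' (by positivity)] at h1
  have hμc : (μ : ℂ) ≠ 0 := by exact_mod_cast hμ.ne'
  have hex := fun k => exists_torus hρ (σ := σ) (W := W) (lam := lam) (a := a)
    (X := fun θ => (μ : ℂ) * φ k (κ * ev hρ σ W θ))
    (contDiff_const.mul (contDiff_comp (H.differentiableOn k) H.isOpen (contDiff_zeta hρ)
      (zeta_mem hρ hV hκ))) (fun θ j => by
        beta_reduce
        rw [per_ev hρ W θ j])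
    (fun θ => (hF k _ ((norm_zeta hρ θ).trans hκ.le)).symm) (ev_ne hρ hD)
  choose Γ hΓ1 hΓ2 using hex
  set N : Fin (m + 1) → Fin (m + 1) → ℝ := fun k i => rg ρ (ff hρ W σ φ κ k i) with hN
  set cc : ℝ := (Equiv.Perm.sign ((ecol (s + 1)).trans (esum s 0).symm) : ℤ) *
    (2 * Real.pi) ^ (s + 1) with hcc
  have hcc0 : cc ≠ 0 := by
    rw [hcc]
    refine mul_ne_zero ?_ (by positivity)
    rcases Int.units_eq_one_or (Equiv.Perm.sign ((ecol (s + 1)).trans (esum s 0).symm)) with h | h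
      <;> rw [h] <;> simp
  have hreg : ∀ k (T : Fin (0 + 1) → Fin (m + 1)), (Γ k).reg ((lineFam W a).sym lam T) =
      cc * (N k (T 0) - N k (Fin.last m)) := by
    intro k T
    rw [hΓ2]
    have g1 := good_ff hρ hD H hR0 hV hκ0 hκ k (T 0)
    have g2 := good_ff hρ hD H hR0 hV hκ0 hκ k (Fin.last m)
    have e1 : (fun θ => ((μ : ℂ) * φ k (κ * ev hρ σ W θ) - σ (a (T 0))) /
        ((μ : ℂ) * φ k (κ * ev hρ σ W θ) - σ (a (Fin.last m)))) = fun θ =>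
        ff hρ W σ φ κ k (T 0) θ / ff hρ W σ φ κ k (Fin.last m) θ := by
      funext θ
      unfold ff
      rw [← h0, ← h0, ← mul_sub, ← mul_sub, mul_div_mul_left _ _ hμc]
    rw [e1, pairing_entr (esum s 0) hρ (by
      simp only [div_eq_mul_inv]
      exact g1.mul (good_inv g2)), rg_div g1 g2]
  have key := det_ne_zero_of_form (ι := (lineFam W a).Ix) N
    (sum_rg hρ hD H hR0 hV hκ0 hκ)
    (fun c hc hc0 => (quad_neg hρ hD H hR0 hV hκ0 hκ hB hquad c hc hc0).ne) (fun T => T.1 0)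
    (fun T T' h => by
      apply Subtype.ext
      funext i
      rw [Subsingleton.elim i 0]
      exact h) (Fin.last m) hIx (fun k => by
      by_cases h : k = Fin.last m
      · exact Or.inl h
      · exact Or.inr ⟨⟨fun _ => k, (nbc_line W ha _).2 h⟩, rfl⟩)
  refine ⟨fun T => Γ (T.1 0), fun T => hΓ1 _, ?_⟩
  have hMat : (Matrix.of fun T T' : (lineFam W a).Ix =>
      (Γ (T.1 0)).reg ((lineFam W a).sym lam T'.1)) =
      cc • Matrix.of fun T T' : (lineFam W a).Ix => N (T.1 0) (T'.1 0) - N (T.1 0) (Fin.last m) := by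
    ext T T'
    rw [Matrix.of_apply, Matrix.smul_apply, Matrix.of_apply, hreg, smul_eq_mul]
  rw [hMat, Matrix.det_smul]
  refine mul_ne_zero (pow_ne_zero _ hcc0) ?_
  intro h
  apply key
  rw [← h]

end main

end Pool.Agent.Run7.h406.Fc
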