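import Pool.Agent.Run7.h406.Fb.Pair
import Pool.Agent.N65.TL.Branch
set_option autoImplicit false

/-!
The regulator integral when all but one entry are the coordinates of a torus with given radii.
-/

namespace Pool.Agent.Run7.h406.Fc

open MeasureTheory Set

open Pool.Agent.TH826.MK

open Pool.Agent.Y775.CC (grow_circ_zero grow_circ_self grow_circ_ne)

open Pool.Agent.Run7.h406.Fb (integral_box)

open Pool.Agent.N65.TL (good_zpow lw_zpow lw_inv good_inv)

section rg

variable {D : ℕ} (ρ : Fin D → ℝ)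

/-- the integrand -/
noncomputable def rgi (f : (Fin D → ℝ) → ℂ) (θ : Fin D → ℝ) : ℝ :=
  Real.log ‖f θ‖ - ∑ j, Real.log (ρ j) / (2 * Real.pi) * (lw f j θ).im

/-- The functional. -/
noncomputable def rg (f : (Fin D → ℝ) → ℂ) : ℝ := ∫ θ in Icc (0 : Fin D → ℝ) 1, rgi ρ f θ

variable {ρ} {f g : (Fin D → ℝ) → ℂ}

theorem continuous_lw (hf : Good f) (j : Fin D) : Continuous (lw f j) := by
  unfold lw
  refine Continuous.div ?_ hf.smooth.continuous hf.ne_zero
  exact (hf.smooth.continuous_fderiv (by norm_num)).clm_apply continuous_const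

theorem continuous_rgi (hf : Good f) : Continuous (rgi ρ f) := by
  unfold rgi
  refine Continuous.sub ?_ ?_
  · exact hf.smooth.continuous.norm.log fun θ => norm_ne_zero_iff.2 (hf.ne_zero θ)
  · exact continuous_finsetSum _ fun j _ => continuous_const.mul
      (Complex.continuous_im.comp (continuous_lw hf j))

theorem int_box {E : Type*} [NormedAddCommGroup E] {F : (Fin D → ℝ) → E} (hF : Continuous F) :
    IntegrableOn F (Icc (0 : Fin D → ℝ) 1) :=
  hF.continuousOn.integrableOn_compact isCompact_Icc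

theorem vol_box : (volume.restrict (Icc (0 : Fin D → ℝ) 1)).real univ = 1 := by
  rw [measureReal_restrict_apply_univ, measureReal_def, Real.volume_Icc_pi]
  simp

theorem int_const (c : ℝ) : ∫ _θ in Icc (0 : Fin D → ℝ) 1, c = c := by
  rw [integral_const, vol_box, one_smul]

theorem rg_mul (hf : Good f) (hg : Good g) : rg ρ (fun θ => f θ * g θ) = rg ρ f + rg ρ g := by
  unfold rg
  rw [← integral_add (int_box (continuous_rgi hf)) (int_box (continuous_rgi hg))]
  refine integral_congr_ae (Filter.Eventually.of_forall fun θ => ?_)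
  simp only
  unfold rgi
  simp only [lw_mul hf hg, Complex.add_im, mul_add, Finset.sum_add_distrib]
  rw [norm_mul, Real.log_mul (norm_ne_zero_iff.2 (hf.ne_zero _))
    (norm_ne_zero_iff.2 (hg.ne_zero _))]
  ring

theorem lw_const' (c : ℂ) (j : Fin D) (θ : Fin D → ℝ) : lw (fun _ : Fin D → ℝ => c) j θ = 0 := by
  unfold lw
  simp

theorem rg_const (c : ℂ) : rg ρ (fun _ : Fin D → ℝ => c) = Real.log ‖c‖ := by
  unfold rg rgi
  simp only [lw_const', Complex.zero_im, mul_zero, Finset.sum_const_zero, sub_zero]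
  exact int_const _

theorem good_const {c : ℂ} (hc : c ≠ 0) : Good (fun _ : Fin D → ℝ => c) :=
  ⟨contDiff_const, fun _ => hc⟩

theorem rg_div (hf : Good f) (hg : Good g) : rg ρ (fun θ => f θ / g θ) = rg ρ f - rg ρ g := by
  have h1 : Good fun θ => f θ / g θ := by
    simp only [div_eq_mul_inv]
    exact hf.mul (good_inv hg)
  have h2 := rg_mul (ρ := ρ) h1 hg
  have h3 : (fun θ => f θ / g θ * g θ) = f := funext fun θ => div_mul_cancel₀ _ (hg.ne_zero θ)
  rw [h3] at h2
  linarith

theorem rg_prod {ι : Type*} (t : Finset ι) {F : ι → (Fin D → ℝ) → ℂ} (hF : ∀ i, Good (F i)) :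
    Good (fun θ => ∏ i ∈ t, F i θ) ∧ rg ρ (fun θ => ∏ i ∈ t, F i θ) = ∑ i ∈ t, rg ρ (F i) := by
  classical
  induction t using Finset.induction_on with
  | empty =>
    simp only [Finset.prod_empty, Finset.sum_empty]
    refine ⟨good_const one_ne_zero, ?_⟩
    rw [rg_const, norm_one, Real.log_one]
  | insert j t hj ih =>
    simp only [Finset.prod_insert hj, Finset.sum_insert hj]
    exact ⟨(hF j).mul ih.1, by rw [rg_mul (hF j) ih.1, ih.2]⟩

theorem rg_zpow (hf : Good f) (m : ℤ) : rg ρ (fun θ => f θ ^ m) = m * rg ρ f := by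
  unfold rg
  rw [← integral_const_mul]
  refine integral_congr_ae (Filter.Eventually.of_forall fun θ => ?_)
  simp only
  unfold rgi
  simp only [lw_zpow hf]
  rw [norm_zpow, Real.log_zpow, mul_sub, Finset.mul_sum]
  congr 1
  refine Finset.sum_congr rfl fun j _ => ?_
  rw [← Complex.ofReal_intCast, Complex.im_ofReal_mul]
  ring

theorem good_circ' {r : ℝ} (hr : 0 < r) (l : Fin D) : Good fun θ : Fin D → ℝ => circ r (θ l) :=
  ⟨(contDiff_circ r).comp (contDiff_apply ℝ ℝ l), fun θ => by
    rw [← norm_ne_zero_iff, norm_circ hr.le]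
    exact hr.ne'⟩

theorem lw_circ' {r : ℝ} (hr : 0 < r) (l j : Fin D) (θ : Fin D → ℝ) :
    lw (fun θ : Fin D → ℝ => circ r (θ l)) j θ = if j = l then 2 * Real.pi * Complex.I else 0 := by
  by_cases h : j = l
  · subst h
    rw [if_pos rfl, lw_vf_self (contDiff_circ r), (hasDerivAt_circ r _).deriv,
      mul_div_cancel_right₀]
    rw [← norm_ne_zero_iff, norm_circ hr.le]
    exact hr.ne'
  · rw [if_neg h, lw_vf_ne (contDiff_circ r) h]

theorem rg_circ (hρ : ∀ i, 0 < ρ i) (l : Fin D) :
    rg ρ (fun θ : Fin D → ℝ => circ (ρ l) (θ l)) = 0 := by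
  unfold rg
  have h1 : ∀ θ : Fin D → ℝ, rgi ρ (fun θ : Fin D → ℝ => circ (ρ l) (θ l)) θ = 0 := by
    intro θ
    unfold rgi
    simp only [lw_circ' (hρ l)]
    rw [norm_circ (hρ l).le, Finset.sum_eq_single l]
    · rw [if_pos rfl]
      have h2 : (2 * Real.pi * Complex.I : ℂ).im = 2 * Real.pi := by simp
      rw [h2, div_mul_cancel₀ _ (by positivity), sub_self]
    · intro j _ hj
      rw [if_neg hj, Complex.zero_im, mul_zero]
    · intro h
      exact absurd (Finset.mem_univ l) h
  simp only [h1]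
  simp

/-- the integral of a partial derivative of a periodic function -/
theorem int_fderiv {h : (Fin D → ℝ) → ℂ} (hh : ContDiff ℝ 2 h) (hp : Per h) (j : Fin D) :
    ∫ θ in Icc (0 : Fin D → ℝ) 1, (fderiv ℝ h θ (Pi.single j 1)).im = 0 := by
  obtain ⟨n, rfl⟩ : ∃ n, D = n + 1 := ⟨D - 1, by have := j.pos; omega⟩
  have hc : Continuous fun θ => (fderiv ℝ h θ (Pi.single j 1)).im :=
    Complex.continuous_im.comp ((hh.continuous_fderiv (by norm_num)).clm_apply continuous_const)
  rw [integral_box j hc]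
  have h0 : ∀ x : Fin n → ℝ, ∫ s in (0 : ℝ)..1,
      (fderiv ℝ h (j.insertNth s x) (Pi.single j 1)).im = 0 := by
    intro x
    have hline : ∀ s : ℝ, (j.insertNth s x : Fin (n + 1) → ℝ) =
        (j.insertNth 0 x : Fin (n + 1) → ℝ) + s • Pi.single j 1 := by
      intro s
      funext l
      rcases Fin.eq_self_or_eq_succAbove j l with hl | ⟨k, hl⟩
      · subst hl
        simp
      · subst hl
        simp
    have hd : ∀ s : ℝ, HasDerivAt (fun s : ℝ => (h (j.insertNth s x)).im)
        (fderiv ℝ h (j.insertNth s x) (Pi.single j 1)).im s := by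
      intro s
      have e1 : HasDerivAt (fun s : ℝ => (j.insertNth s x : Fin (n + 1) → ℝ)) (Pi.single j 1) s := by
        have e2 := ((hasDerivAt_id s).smul_const (Pi.single j 1 : Fin (n + 1) → ℝ)).const_add
          (j.insertNth 0 x : Fin (n + 1) → ℝ)
        have e3 : (fun s : ℝ => (j.insertNth s x : Fin (n + 1) → ℝ)) = fun s : ℝ =>
            (j.insertNth 0 x : Fin (n + 1) → ℝ) + s • Pi.single j 1 := funext hline
        rw [e3]
        simpa using e2
      have e4 : HasFDerivAt h (fderiv ℝ h (j.insertNth s x)) (j.insertNth s x) :=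
        ((hh.differentiable (by norm_num)) _).hasFDerivAt
      have e5 := e4.comp_hasDerivAt s e1
      exact (Complex.imCLM.hasFDerivAt.comp_hasDerivAt s e5)
    have hcs : Continuous fun s : ℝ => (fderiv ℝ h (j.insertNth s x) (Pi.single j 1)).im := by
      refine hc.comp ?_
      have e3 : (fun s : ℝ => (j.insertNth s x : Fin (n + 1) → ℝ)) = fun s : ℝ =>
            (j.insertNth 0 x : Fin (n + 1) → ℝ) + s • Pi.single j 1 := funext hline
      rw [e3]
      fun_prop
    rw [intervalIntegral.integral_eq_sub_of_hasDerivAt (fun s _ => hd s)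
      (hcs.intervalIntegrable _ _)]
    have e6 : (j.insertNth 1 x : Fin (n + 1) → ℝ) =
        (j.insertNth 0 x : Fin (n + 1) → ℝ) + Pi.single j 1 := by
      rw [hline 1, one_smul]
    rw [e6, hp, sub_self]
  simp only [h0]
  simp

theorem rg_exp {h : (Fin D → ℝ) → ℂ} (hh : ContDiff ℝ 2 h) (hp : Per h) :
    rg ρ (fun θ => Complex.exp (h θ)) = ∫ θ in Icc (0 : Fin D → ℝ) 1, (h θ).re := by
  have hlw : ∀ j θ, lw (fun θ => Complex.exp (h θ)) j θ = fderiv ℝ h θ (Pi.single j 1) := by
    intro j θ
    unfold lw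
    have h1 : HasFDerivAt h (fderiv ℝ h θ) θ := ((hh.differentiable (by norm_num)) θ).hasFDerivAt
    rw [h1.cexp.fderiv]
    simp only [smul_apply, smul_eq_mul]
    rw [mul_div_cancel_left₀ _ (Complex.exp_ne_zero _)]
  have hc : ∀ j : Fin D, Continuous fun θ => (fderiv ℝ h θ (Pi.single j 1)).im := fun j =>
    Complex.continuous_im.comp ((hh.continuous_fderiv (by norm_num)).clm_apply continuous_const)
  unfold rg rgi
  simp only [hlw, Complex.norm_exp, Real.log_exp]
  rw [integral_sub, integral_finsetSum]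
  · simp only [integral_const_mul, int_fderiv hh hp, mul_zero, Finset.sum_const_zero, sub_zero]
  · intro j _
    exact (int_box (hc j)).const_mul _
  · exact int_box (Complex.continuous_re.comp hh.continuous)
  · exact integrable_finsetSum _ fun j _ => (int_box (hc j)).const_mul _

end rg

end Pool.Agent.Run7.h406.Fc
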