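import Pool.Agent.Run7.h406.Fc.Main
import Pool.Agent.N686.DI.Int2
set_option autoImplicit false

/-!
Uniform results for the fibrations `W(z) = c ∏_e (x - b_e)` with integers `b_e`.
-/

namespace Pool.Agent.Run7.h406.Fc

open Polynomial

open Pool.Agent.N65.TL

section dom

variable {K : Type*} [Field K] {s : ℕ}

theorem prod_zpow_zpow {n : ℕ} {t : ℝ} (ht : 0 < t) (a m : Fin n → ℤ) :
    ∏ i, (t ^ (a i)) ^ (m i) = t ^ (dot a m) := by
  unfold dot
  have h1 : ∀ u : Finset (Fin n), ∏ i ∈ u, (t ^ a i) ^ m i = t ^ (∑ i ∈ u, a i * m i) := by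
    intro u
    induction u using Finset.induction_on with
    | empty => simp
    | insert j u hj ih =>
      rw [Finset.prod_insert hj, Finset.sum_insert hj, ih, zpow_add₀ ht.ne', zpow_mul]
  exact h1 Finset.univ

/-- There are radii for which a vertex dominates. -/
theorem exists_dom {W : LP K (s + 1)} (hW : Interior W) (σ : K →+* ℂ) :
    ∃ (v : Fin (s + 1) → ℤ) (ρ : Fin (s + 1) → ℝ), (∀ i, 0 < ρ i) ∧ Dom ρ σ W v := by
  classical
  obtain ⟨a, v, hv, -, hmax⟩ := exists_vertex hW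
  have hwn : 0 < ‖σ (W.coeff v)‖ := norm_pos_iff.2 ((map_ne_zero σ).2 hv)
  set S : ℝ := ∑ m ∈ W.coeff.support.erase v, ‖σ (W.coeff m)‖ with hS
  have hS0 : 0 ≤ S := Finset.sum_nonneg fun m _ => norm_nonneg _
  set t : ℝ := 1 + S / ‖σ (W.coeff v)‖ with ht
  have ht1 : 1 ≤ t := by
    have : 0 ≤ S / ‖σ (W.coeff v)‖ := by positivity
    linarith
  have ht0 : 0 < t := by linarith
  refine ⟨v, fun i => t ^ (a i), fun i => zpow_pos ht0 _, ⟨a, hmax⟩, ?_⟩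
  have hv' : v ∈ W.coeff.support := Finsupp.mem_support_iff.2 hv
  unfold nn
  simp only [prod_zpow_zpow ht0]
  rw [← Finset.add_sum_erase _ _ hv']
  have h1 : ∑ m ∈ W.coeff.support.erase v, ‖σ (W.coeff m)‖ * t ^ (dot a m) ≤
      S * t ^ (dot a v - 1) := by
    rw [hS, Finset.sum_mul]
    refine Finset.sum_le_sum fun m hm => mul_le_mul_of_nonneg_left ?_ (norm_nonneg _)
    refine zpow_le_zpow_right₀ ht1 ?_
    have := hmax m (Finsupp.mem_support_iff.1 (Finset.mem_of_mem_erase hm))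
      (Finset.ne_of_mem_erase hm)
    omega
  have h2 : S * t ^ (dot a v - 1) < ‖σ (W.coeff v)‖ * t ^ (dot a v) := by
    have e : t ^ (dot a v) = t ^ (dot a v - 1) * t := by
      rw [zpow_sub_one₀ ht0.ne', inv_mul_cancel_right₀ ht0.ne']
    rw [e]
    have h3 : S < ‖σ (W.coeff v)‖ * t := by
      rw [ht, mul_add, mul_one, mul_div_cancel₀ _ hwn.ne']
      linarith
    have h4 : 0 < t ^ (dot a v - 1) := zpow_pos ht0 _
    calc S * t ^ (dot a v - 1) < ‖σ (W.coeff v)‖ * t * t ^ (dot a v - 1) :=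
          mul_lt_mul_of_pos_right h3 h4
      _ = _ := by ring
  linarith

end dom

section unif

variable {K : Type*} [Field K] {s : ℕ} {W : LP K (s + 1)}

/-- The criterion with a bound which depends on `W` only. -/
theorem exists_indep (hW : Interior W) (σ : K →+* ℂ) : ∃ C₀ : ℝ, 0 ≤ C₀ ∧
    ∀ (m : ℕ) (lam : K) (a : Fin (m + 1) → K), lam ≠ 0 → Function.Injective a →
      (∀ x : ℂ, (derivative (∏ i, (X - C (σ (a i))))).eval x = 0 →
        C₀ < ‖σ lam‖ * ‖∏ i, (x - σ (a i))‖) → (lineFam W a).Indep lam σ := by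
  obtain ⟨v, ρ, hρ, hD⟩ := exists_dom hW σ
  have hn := nn_nonneg (σ := σ) hρ W
  refine ⟨Real.sqrt (nn ρ σ W ^ 2 + ‖σ (W.coeff v)‖ ^ 2), Real.sqrt_nonneg _,
    fun m lam a hl ha hcrit => indep hρ hD hl ha (B := nn ρ σ W)
      (fun k => norm_coeff_le hρ W k) fun x hx => ?_⟩
  have h1 := hcrit x hx
  have h2 : nn ρ σ W ≤ Real.sqrt (nn ρ σ W ^ 2 + ‖σ (W.coeff v)‖ ^ 2) :=
    Real.le_sqrt_of_sq_le (by nlinarith [sq_nonneg ‖σ (W.coeff v)‖])
  have h3 : 0 < ‖σ lam‖ * ‖∏ i, (x - σ (a i))‖ := lt_of_le_of_lt (Real.sqrt_nonneg _) h1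
  refine ⟨lt_of_le_of_lt h2 h1, ?_⟩
  rwa [Real.sqrt_lt' h3] at h1

/-- The critical values for integral zeros. -/
theorem crit_int_large [CharZero K] (σ : K →+* ℂ) {m : ℕ} {c : ℤ} {b : Fin (m + 1) → ℤ}
    (hc : c ≠ 0) (hb : Function.Injective b) {N : ℕ}
    (h : (N : ℤ) ≤ |c| ∨ ∃ i j, (N : ℤ) ≤ |b i - b j|) (x : ℂ)
    (hx : (derivative (∏ i, (X - C (σ (b i : K))))).eval x = 0) :
    (N : ℝ) / 8 ≤ ‖σ (c : K)‖ * ‖∏ i, (x - σ (b i : K))‖ := by
  simp only [map_intCast] at hx ⊢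
  have hcn : ‖(c : ℂ)‖ = ((|c| : ℤ) : ℝ) := by
    rw [Complex.norm_intCast]
    push_cast
    rfl
  rw [hcn]
  rcases h with h | ⟨i, j, h⟩
  · have h1 := (Pool.Agent.N686.DI.crit_int_ge b hb hx).2
    have h2 : (N : ℝ) ≤ ((|c| : ℤ) : ℝ) := by exact_mod_cast h
    have h3 : (0 : ℝ) ≤ N := Nat.cast_nonneg N
    calc (N : ℝ) / 8 ≤ N * (1 / 4) := by linarith
      _ ≤ _ := mul_le_mul h2 h1 (by norm_num) (h3.trans h2)
  · have h1 := Pool.Agent.N686.DI.crit_int_abs b hb hx i j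
    have h2 : (N : ℝ) ≤ ((|b i - b j| : ℤ) : ℝ) := by exact_mod_cast h
    have h3 : (1 : ℝ) ≤ ((|c| : ℤ) : ℝ) := by exact_mod_cast Int.one_le_abs hc
    have h4 : (N : ℝ) / 8 ≤ ‖∏ i, (x - (b i : ℂ))‖ := by linarith
    calc (N : ℝ) / 8 = 1 * (N / 8) := (one_mul _).symm
      _ ≤ _ := mul_le_mul h3 h4 (by positivity) (by linarith)

theorem exists_indep_int [CharZero K] (hW : Interior W) (σ : K →+* ℂ) : ∃ N : ℕ,
    ∀ (m : ℕ) (c : ℤ) (b : Fin (m + 1) → ℤ), c ≠ 0 → Function.Injective b →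
      ((N : ℤ) ≤ |c| ∨ ∃ i j, (N : ℤ) ≤ |b i - b j|) →
      (lineFam W fun i => (b i : K)).Indep (c : K) σ := by
  obtain ⟨C₀, hC0, h⟩ := exists_indep hW σ
  refine ⟨⌈8 * C₀⌉₊ + 1, fun m c b hc hb hN => h m c _ (Int.cast_ne_zero.2 hc)
    (fun i j hij => hb (Int.cast_injective hij)) fun x hx => ?_⟩
  have h1 := crit_int_large (K := K) σ hc hb hN x hx
  refine lt_of_lt_of_le ?_ h1
  have h2 := Nat.le_ceil (8 * C₀)
  push_cast
  linarith

end unif

end Pool.Agent.Run7.h406.Fc
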