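import Pool.Agent.Run7.h406.Fc.Ev
set_option autoImplicit false

/-!
Laurent polynomials which are dominated by a vertex.
-/

namespace Pool.Agent.Run7.h406.Fc

open MeasureTheory Set Filter Topology

open Pool.Agent.TH826.MK

open Pool.Agent.N65.TL (LP lev lev_eq lev_single mon mon_zero good_zpow dot coeff_prod_le)

section vert

variable {K : Type*} [Field K] {D : ℕ} {ρ : Fin D → ℝ} (hρ : ∀ i, 0 < ρ i) {σ : K →+* ℂ}
  {W : LP K D} {v : Fin D → ℤ}

/-- the vertex `v` dominates `W` on the torus with the radii `ρ` -/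
structure Dom (ρ : Fin D → ℝ) (σ : K →+* ℂ) (W : LP K D) (v : Fin D → ℤ) : Prop where
  /-- `v` is an exposed vertex -/
  ex : ∃ a : Fin D → ℤ, ∀ m, W.coeff m ≠ 0 → m ≠ v → dot a m < dot a v
  /-- domination -/
  big : nn ρ σ W < 2 * (‖σ (W.coeff v)‖ * ∏ i, ρ i ^ (v i))

include hρ in
theorem nn_nonneg (P : LP K D) : 0 ≤ nn ρ σ P :=
  Finset.sum_nonneg fun m _ => mul_nonneg (norm_nonneg _)
    (Finset.prod_nonneg fun i _ => (zpow_pos (hρ i) _).le)

variable (hD : Dom ρ σ W v)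

include hρ hD

theorem coeff_ne : W.coeff v ≠ 0 := by
  intro h
  have h1 := hD.big
  rw [h, map_zero, norm_zero, zero_mul, mul_zero] at h1
  have := nn_nonneg (σ := σ) hρ W
  linarith

theorem sig_ne : σ (W.coeff v) ≠ 0 := (map_ne_zero σ).2 (coeff_ne hρ hD)

/-- the perturbation -/
noncomputable def hh (W : LP K D) (v : Fin D → ℤ) : LP K D :=
  W * AddMonoidAlgebra.single (-v) (W.coeff v)⁻¹ - 1

theorem hh_coeff : ∃ a : Fin D → ℤ, ∀ m, (hh W v).coeff m ≠ 0 → dot a m ≤ -1 := by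
  obtain ⟨a, ha⟩ := hD.ex
  refine ⟨a, fun m hm => ?_⟩
  have h1 : (hh W v).coeff m = W.coeff (m + v) * (W.coeff v)⁻¹ - (1 : LP K D).coeff m := by
    unfold hh
    rw [AddMonoidAlgebra.coeff_sub, Finsupp.sub_apply, AddMonoidAlgebra.coeff_mul_single_apply,
      neg_neg]
  rw [h1] at hm
  by_cases h0 : m = 0
  · exfalso
    apply hm
    rw [h0, zero_add, mul_inv_cancel₀ (coeff_ne hρ hD), AddMonoidAlgebra.coeff_one_zero, sub_self]
  · have h2 : (1 : LP K D).coeff m = 0 := by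
      rw [AddMonoidAlgebra.one_def, AddMonoidAlgebra.coeff_single, Finsupp.single_eq_of_ne h0]
    rw [h2, sub_zero] at hm
    have h3 := ha (m + v) (left_ne_zero_of_mul hm) (fun h => h0 (by simpa using h))
    have h4 : dot a (m + v) = dot a m + dot a v := by
      unfold dot
      rw [← Finset.sum_add_distrib]
      exact Finset.sum_congr rfl fun i _ => by rw [Pi.add_apply]; ring
    omega

theorem hh_pow_coeff {k : ℕ} (hk : 0 < k) : ((hh W v) ^ k).coeff 0 = 0 := by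
  obtain ⟨a, ha⟩ := hh_coeff hρ hD
  by_contra hne
  let w : (Fin D → ℤ) →+ ℤ :=
    { toFun := dot a
      map_zero' := by
        unfold dot
        simp
      map_add' := fun x y => by
        unfold dot
        rw [← Finset.sum_add_distrib]
        exact Finset.sum_congr rfl fun i _ => by rw [Pi.add_apply]; ring }
  have h1 := coeff_prod_le w (fun _ : Fin k => hh W v) (fun _ => -1) (fun _ m hm => ha m hm)
    Finset.univ 0 (by simpa using hne)
  rw [map_zero] at h1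
  simp at h1
  omega

theorem prod_inv (θ : Fin D → ℝ) : ∏ i, zt ρ i θ ^ ((-v) i) = (∏ i, zt ρ i θ ^ (v i))⁻¹ := by
  rw [← Finset.prod_inv_distrib]
  exact Finset.prod_congr rfl fun i _ => by rw [Pi.neg_apply, zpow_neg]

theorem ev_hh (θ : Fin D → ℝ) : ev hρ σ W θ =
    σ (W.coeff v) * (∏ i, zt ρ i θ ^ (v i)) * (1 + ev hρ σ (hh W v) θ) := by
  have h1 : (∏ i, zt ρ i θ ^ (v i)) ≠ 0 := (good_mon hρ v).ne_zero θ
  have h2 := sig_ne hρ hD
  unfold hh
  rw [ev_sub, ev_mul, ev_one, ev_single, prod_inv hρ hD, map_inv₀]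
  field_simp
  ring

theorem norm_ev_sub_le (θ : Fin D → ℝ) :
    ‖ev hρ σ W θ - σ (W.coeff v) * ∏ i, zt ρ i θ ^ (v i)‖ ≤
      nn ρ σ W - ‖σ (W.coeff v)‖ * ∏ i, ρ i ^ (v i) := by
  classical
  have hv : v ∈ W.coeff.support := Finsupp.mem_support_iff.2 (coeff_ne hρ hD)
  have h1 : ev hρ σ W θ - σ (W.coeff v) * ∏ i, zt ρ i θ ^ (v i) =
      ∑ m ∈ W.coeff.support.erase v, σ (W.coeff m) * ∏ i, zt ρ i θ ^ (m i) := by
    rw [ev_eq, ← Finset.add_sum_erase _ _ hv, add_sub_cancel_left]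
  have h2 : nn ρ σ W - ‖σ (W.coeff v)‖ * ∏ i, ρ i ^ (v i) =
      ∑ m ∈ W.coeff.support.erase v, ‖σ (W.coeff m)‖ * ∏ i, ρ i ^ (m i) := by
    unfold nn
    rw [← Finset.add_sum_erase _ _ hv, add_sub_cancel_left]
  rw [h1, h2]
  refine (norm_sum_le _ _).trans (le_of_eq ?_)
  exact Finset.sum_congr rfl fun m _ => by rw [norm_mul, norm_mon hρ]

theorem exists_r : ∃ r : ℝ, r < 1 ∧ ∀ θ, ‖ev hρ σ (hh W v) θ‖ ≤ r := by
  set c : ℝ := ‖σ (W.coeff v)‖ * ∏ i, ρ i ^ (v i) with hc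
  have hc0 : 0 < c := mul_pos (norm_pos_iff.2 (sig_ne hρ hD))
    (Finset.prod_pos fun i _ => zpow_pos (hρ i) _)
  refine ⟨(nn ρ σ W - c) / c, ?_, fun θ => ?_⟩
  · rw [div_lt_one hc0]
    have := hD.big
    linarith
  · have h1 := norm_ev_sub_le hρ hD θ
    have h2 : ev hρ σ W θ - σ (W.coeff v) * ∏ i, zt ρ i θ ^ (v i) =
        σ (W.coeff v) * (∏ i, zt ρ i θ ^ (v i)) * ev hρ σ (hh W v) θ := by
      rw [ev_hh hρ hD θ]
      ring
    rw [h2, norm_mul, norm_mul, norm_mon hρ, ← hc] at h1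
    rw [le_div_iff₀ hc0]
    linarith

theorem ev_ne (θ : Fin D → ℝ) : ev hρ σ W θ ≠ 0 := by
  obtain ⟨r, hr, h⟩ := exists_r hρ hD
  rw [ev_hh hρ hD]
  refine mul_ne_zero (mul_ne_zero (sig_ne hρ hD) ((good_mon hρ v).ne_zero θ)) ?_
  intro h0
  have h1 : ev hρ σ (hh W v) θ = -1 := by linear_combination h0
  have h2 := h θ
  rw [h1, norm_neg, norm_one] at h2
  linarith

theorem good_ev : Good (ev hρ σ W) := ⟨contDiff_ev hρ W, ev_ne hρ hD⟩

/-- the integral of the logarithm of the perturbation -/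
theorem int_log : ∫ θ in Icc (0 : Fin D → ℝ) 1, Complex.log (1 + ev hρ σ (hh W v) θ) = 0 := by
  obtain ⟨r, hr, h⟩ := exists_r hρ hD
  have hr0 : 0 ≤ r := (norm_nonneg _).trans (h 0)
  have h1 := hasSum_int hρ (hh W v) h (g := fun u => Complex.log (1 + u))
    (c := fun m : ℕ => (-1) ^ (m + 1) / m) (fun u hu => by
      have h2 := Complex.hasSum_taylorSeries_log (z := u) (hu.trans_lt hr)
      refine (funext fun m => ?_ : (fun m : ℕ => (-1 : ℂ) ^ (m + 1) / m * u ^ m) = _) ▸ h2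
      ring) (by
      refine Summable.of_nonneg_of_le (fun m => by positivity) (fun m => ?_)
        (summable_geometric_of_lt_one hr0 hr)
      rw [norm_div, norm_pow, norm_neg, norm_one, one_pow, Complex.norm_natCast]
      rcases Nat.eq_zero_or_pos m with hm | hm
      · subst hm
        simp
      · have hm1 : (1 : ℝ) ≤ m := by exact_mod_cast hm
        calc 1 / (m : ℝ) * r ^ m ≤ 1 * r ^ m :=
              mul_le_mul_of_nonneg_right ((div_le_one (by linarith)).2 hm1) (by positivity)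
          _ = r ^ m := one_mul _)
  have h2 : (fun m : ℕ => (-1 : ℂ) ^ (m + 1) / m * σ (((hh W v) ^ m).coeff 0)) = fun _ => 0 := by
    funext m
    rcases Nat.eq_zero_or_pos m with hm | hm
    · subst hm
      simp
    · rw [hh_pow_coeff hρ hD hm, map_zero, mul_zero]
  rw [h2] at h1
  exact (hasSum_zero.unique h1).symm

/-- **The functional at `W`.** -/
theorem rg_ev : rg ρ (ev hρ σ W) = Real.log ‖σ (W.coeff v)‖ := by
  obtain ⟨r, hr, h⟩ := exists_r hρ hD
  have hslit : ∀ θ, 1 + ev hρ σ (hh W v) θ ∈ Complex.slitPlane := fun θ =>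
    Complex.mem_slitPlane_of_norm_lt_one ((h θ).trans_lt hr)
  set L : (Fin D → ℝ) → ℂ := fun θ => Complex.log (1 + ev hρ σ (hh W v) θ) with hL
  have hLc : ContDiff ℝ 2 L := by
    rw [contDiff_iff_contDiffAt]
    intro θ
    have h1 : ContDiffAt ℝ 2 (fun θ => 1 + ev hρ σ (hh W v) θ) θ :=
      (contDiff_const.add (contDiff_ev hρ _)).contDiffAt
    have h2 : ContDiffAt ℝ 2 Complex.log (1 + ev hρ σ (hh W v) θ) :=
      (Complex.contDiffAt_log (hslit θ) (n := 2)).restrict_scalars ℝ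
    exact ContDiffAt.comp (g := Complex.log) (f := fun θ => 1 + ev hρ σ (hh W v) θ) θ h2 h1
  have hLp : Per L := by
    intro θ j
    simp only [hL]
    rw [per_ev hρ (hh W v) θ j]
  have e : ev hρ σ W = fun θ => (σ (W.coeff v) * ∏ i, zt ρ i θ ^ (v i)) * Complex.exp (L θ) := by
    funext θ
    simp only [hL]
    rw [Complex.exp_log (Complex.slitPlane_ne_zero (hslit θ))]
    exact ev_hh hρ hD θ
  have g1 : Good fun _ : Fin D → ℝ => σ (W.coeff v) := good_const (sig_ne hρ hD)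
  have g2 := good_mon hρ v
  have g3 : Good fun θ => Complex.exp (L θ) := ⟨hLc.cexp, fun _ => Complex.exp_ne_zero _⟩
  rw [e, rg_mul (g1.mul g2) g3, rg_mul g1 g2, rg_const, rg_exp hLc hLp]
  have h1 : rg ρ (fun θ : Fin D → ℝ => ∏ i, zt ρ i θ ^ (v i)) = 0 := by
    rw [(rg_prod (ρ := ρ) Finset.univ fun i => good_zpow (good_zt hρ i) (v i)).2]
    refine Finset.sum_eq_zero fun i _ => ?_
    rw [rg_zpow (good_zt hρ i)]
    have : rg ρ (zt ρ i) = 0 := rg_circ hρ i
    rw [this, mul_zero]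
  have h2 : ∫ θ in Icc (0 : Fin D → ℝ) 1, (L θ).re = 0 := by
    have h3 := Complex.reCLM.integral_comp_comm (μ := volume.restrict (Icc (0 : Fin D → ℝ) 1))
      (φ := L) (int_box hLc.continuous)
    simp only [Complex.reCLM_apply] at h3
    rw [h3]
    have h4 := int_log hρ hD
    simp only [hL]
    rw [h4, Complex.zero_re]
  rw [h1, h2, add_zero, add_zero]

end vert

end Pool.Agent.Run7.h406.Fc
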